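import Pool.Agent.Helper79.GU.St1

/-!
# Project GU (MP_c2d095_lc): module SWN (a safe player wins by passing)
-/

set_option autoImplicit false

namespace Pool.Agent.Helper32.GU

open Pool.Agent.Helper79.GU Pool.Agent.Helper79.GT Pool.Agent.Helper79.GS Pool.Agent.Helper73.DC

private theorem safe_sc {P : Type} {A : Gm P} {c : Bool} {b : P} (h : Safe A c b) (d : ℤ) :
    0 < A.sc b d ↔ c = true := h b Relation.ReflTransGen.refl d

private theorem safe_mv {P : Type} {A : Gm P} {c : Bool} {b b' : P} (h : Safe A c b)
    (hm : A.mv (!c) b b') : Safe A c b' := fun x hx d =>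
  h x (Relation.ReflTransGen.head (Or.inl hm) hx) d

private theorem no_win {P : Type} {A : Gm P} {sk : Bool} {H : Set (Bool × P)} {ps x : Bool}
    {b : P} {d : ℤ} (h : BWg A sk H ps x b d) : Safe A false b → False := by
  induction h with
  | stop H b d hs =>
    intro h
    exact absurd ((safe_sc h d).1 hs) (by decide)
  | pass H b d _ ih => exact ih
  | move H ps b b' d hm _ _ ih =>
    intro h
    exact ih (safe_mv h hm)
  | white H ps b d h1 _ _ ih2 _ =>
    intro h
    cases ps
    · exact ih2 rfl h
    · exact absurd ((safe_sc h d).1 (h1 rfl)) (by decide)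

private theorem wins {P : Type} [Finite P] (A : Gm P) (sk : Bool) : ∀ (n : ℕ) (H : Set (Bool × P)),
    (Hᶜ).ncard = n → ∀ b, Safe A true b → ∀ (ps : Bool) (d : ℤ), BWg A sk H ps false b d := by
  intro n
  induction n using Nat.strong_induction_on with
  | _ n ih =>
    intro H hH b hb ps d
    refine BWg.white H ps b d (fun _ => (safe_sc hb d).2 rfl)
      (fun _ => BWg.stop _ b d ((safe_sc hb d).2 rfl)) ?_
    intro b' hm ho
    have hb' : Safe A true b' := safe_mv hb hm
    have hn : (true, b') ∉ H := by
      unfold okk at ho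
      split_ifs at ho
      · exact ho
      · exact ho true
    refine BWg.pass _ b' _ (ih _ ?_ _ rfl b' hb' true _)
    rw [← hH]
    refine Set.ncard_lt_ncard ?_ (Set.toFinite _)
    refine ⟨?_, ?_⟩
    · intro x hx hx'
      exact hx (Or.inr (Or.inr hx'))
    · intro h
      have h1 : (true, b') ∈ Hᶜ := hn
      exact h h1 (Or.inr (Or.inl rfl))

theorem hSWN : Pool.Agent.Helper79.GU.StSWN := by
  intro P _ A sk c H ps x b d hs
  cases c
  · exact ⟨fun h => absurd hs (fun h' => no_win h h'), fun h => absurd h (by decide)⟩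
  · refine ⟨fun _ => rfl, fun _ => ?_⟩
    cases x
    · exact wins A sk _ H rfl b hs ps d
    · cases ps
      · exact BWg.pass H b d (wins A sk _ _ rfl b hs true d)
      · exact BWg.stop H b d ((safe_sc hs d).2 rfl)

end Pool.Agent.Helper32.GU
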